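import Pool.Agent.Y294.TB.Stm

/-!
Propagation of the generic isotropic state along a chain of bounces at noncircular algebraic
boundary points in the plane.
-/

set_option autoImplicit false

open Set MvPolynomial

namespace Pool.Agent.Y474.TB

open Pool.Agent.TH746 Pool.Agent.TH746.AL H450Al Pool.Agent.Y294.TB

/-! ### Algebraic elements and residues -/

section alg

theorem alg_of_cl {k K κ : Type*} [Field k] [Field K] [Field κ] [Algebra k K] [Algebra k κ]
    [Algebra K κ] [IsScalarTower k K κ] {S : Set κ} (hS : ∀ a ∈ S, ∃ b : K, algebraMap K κ b = a)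
    {y : κ} (hy : y ∈ cl k S) : IsAlgebraic K y := by
  rw [mem_cl] at hy
  obtain ⟨p, hp0, hp⟩ := hy
  have hle : Algebra.adjoin k S ≤ (IsScalarTower.toAlgHom k K κ).range := by
    apply Algebra.adjoin_le
    intro a ha
    obtain ⟨b, hb⟩ := hS a ha
    exact ⟨b, hb⟩
  have hlift : p.map (algebraMap (Algebra.adjoin k S) κ) ∈ Polynomial.lifts (algebraMap K κ) := by
    rw [Polynomial.lifts_iff_coeff_lifts]
    intro n
    rw [Polynomial.coeff_map]
    obtain ⟨b, hb⟩ := hle (p.coeff n).2
    exact ⟨b, hb⟩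
  rw [Polynomial.mem_lifts] at hlift
  obtain ⟨g, hg⟩ := hlift
  refine ⟨g, ?_, ?_⟩
  · rintro rfl
    apply hp0
    rw [Polynomial.map_zero] at hg
    exact (Polynomial.map_eq_zero_iff Subtype.val_injective).1 hg.symm
  · rw [Polynomial.aeval_def, ← Polynomial.eval_map, hg, Polynomial.eval_map]
    exact hp

theorem mem_cl_empty {k κ : Type*} [Field k] [Field κ] [Algebra k κ] {y : κ}
    (hy : IsAlgebraic k y) : y ∈ cl k (∅ : Set κ) := by
  rw [mem_cl]
  exact hy.extendScalars (algebraMap k (Algebra.adjoin k (∅ : Set κ))).injective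

theorem rk_zero_of {k κ : Type*} [Field k] [Field κ] [Algebra k κ] {ι : Type*} (y : ι → κ)
    (hy : ∀ i, IsAlgebraic k (y i)) : rk k (range y) ≤ 0 := by
  have h3 : range y ⊆ cl k ∅ := by
    rintro _ ⟨j, rfl⟩
    exact mem_cl_empty (hy j)
  refine (rk_mono k h3).trans ?_
  refine (rk_le_encard k _).trans ?_
  simp

theorem res_aeval {K Ω : Type*} [Field K] [Field Ω] [Algebra K Ω] (B : ValuationSubring Ω)
    [Algebra K B] [IsScalarTower K B Ω] (y : B) (f : Polynomial K) :
    Polynomial.aeval (IsLocalRing.residue B y) f = 0 ↔ Polynomial.aeval (y : Ω) f ∈ B.nonunits := by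
  have h1 : Polynomial.aeval (IsLocalRing.residue B y) f =
      IsLocalRing.residue B (Polynomial.aeval y f) :=
    Polynomial.aeval_algebraMap_apply (IsLocalRing.ResidueField B) y f
  have h3 : Polynomial.aeval (y : Ω) f = ((Polynomial.aeval y f : B) : Ω) :=
    Polynomial.aeval_algebraMap_apply Ω y f
  rw [h1, h3, res_eq_zero_iff]

theorem alg_res_iff {K Ω : Type*} [Field K] [Field Ω] [Algebra K Ω] (B : ValuationSubring Ω)
    [Algebra K B] [IsScalarTower K B Ω] (y : B) :
    IsAlgebraic K (IsLocalRing.residue B y) ↔ ¬ ResTr K B (y : Ω) := by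
  unfold ResTr
  push Not
  constructor
  · rintro ⟨f, hf0, hf⟩
    exact ⟨f, hf0, (res_aeval B y f).1 hf⟩
  · rintro ⟨f, hf0, hf⟩
    exact ⟨f, hf0, (res_aeval B y f).2 hf⟩

theorem nonunits_real {B : ValuationSubring ℝ} {C : ValuationSubring ℂ}
    (h : ∀ r : ℝ, (r : ℂ) ∈ C ↔ r ∈ B) (r : ℝ) : (r : ℂ) ∈ C.nonunits ↔ r ∈ B.nonunits := by
  rw [ValuationSubring.mem_nonunits_iff_or, ValuationSubring.mem_nonunits_iff_or,
    Complex.ofReal_eq_zero, ← Complex.ofReal_inv, h]

theorem mem_of_sq {C : ValuationSubring ℂ} {ι : ℂ} (h : ι ^ 2 = -1) : ι ∈ C := by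
  rcases C.mem_or_inv_mem ι with h1 | h1
  · exact h1
  · have h0 : ι ≠ 0 := by
      rintro rfl
      norm_num at h
    have h2 : ι = -ι⁻¹ := by
      field_simp
      exact h
    rw [h2]
    exact neg_mem h1

end alg


/-! ### The initial state -/

section start
variable {k : Type*} [Field k] [Algebra k ℝ]

theorem start_state (K : IntermediateField k ℝ) (B : ValuationSubring ℝ) [Algebra k B]
    [IsScalarTower k B ℝ] [Algebra K B] [IsScalarTower K B ℝ] (hKB : ∀ a ∈ K, a ∈ B)
    (x e : Fin 2 → ℝ) (hx : (1 : ℕ∞) ≤ rk k (range x)) (hxK : ∀ i, x i ∈ K)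
    (heB : ∀ i, e i ∈ B) (hnu : (∑ i, e i ^ 2) ∈ B.nonunits) (htr : ∃ i, ResTr K B (e i)) :
    ∃ c : ℝ, c ∈ B ∧ c * e 0 = - x 0 ∧ ∃ q' e' : Fin 2 → B,
      St (k := k) (m := 0) B (fun j => x j + c * e j) e q' e' := by
  classical
  have hxB : ∀ j, x j ∈ B := fun j => hKB _ (hxK j)
  obtain ⟨i0, hi0⟩ := htr
  set x' : Fin 2 → B := fun j => ⟨x j, hxB j⟩ with hx'
  set e' : Fin 2 → B := fun j => ⟨e j, heB j⟩ with he'
  have hDres : IsLocalRing.residue B (∑ j, e' j ^ 2) = 0 := by
    rw [res_eq_zero_iff, AddSubmonoidClass.coe_finsetSum]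
    exact hnu
  set xb := fun j => IsLocalRing.residue B (x' j) with hxb
  set eb := fun j => IsLocalRing.residue B (e' j) with heb
  have hiso : ∑ j, eb j ^ 2 = 0 := by
    rw [map_sum] at hDres
    simp only [map_pow] at hDres
    exact hDres
  have hnalg : ¬ IsAlgebraic K (eb i0) := by
    intro h
    exact (alg_res_iff (K := K) B (e' i0)).1 h hi0
  have htow : IsScalarTower k K (IsLocalRing.ResidueField B) := by
    refine IsScalarTower.of_algebraMap_eq fun a => ?_
    change IsLocalRing.residue B (algebraMap k B a) =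
      IsLocalRing.residue B (algebraMap K B (algebraMap k K a))
    congr 1
    apply Subtype.ext
    have h1 : algebraMap B ℝ (algebraMap k B a) = algebraMap k ℝ a :=
      (IsScalarTower.algebraMap_apply k B ℝ a).symm
    have h2 : algebraMap B ℝ (algebraMap K B (algebraMap k K a)) =
        algebraMap K ℝ (algebraMap k K a) :=
      (IsScalarTower.algebraMap_apply K B ℝ (algebraMap k K a)).symm
    exact h1.trans h2.symm
  have hebK : ((0 + 1 : ℕ) : ℕ∞) ≤ rk K (range eb) := by
    have h1 : eb i0 ∉ cl K (∅ : Set (IsLocalRing.ResidueField B)) := fun h =>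
      hnalg (alg_of_cl (k := K) (K := K) (S := ∅) (by simp) h)
    have h2 := rk_insert_eq K _ _ h1
    have h3 : rk K (insert (eb i0) (∅ : Set (IsLocalRing.ResidueField B))) ≤ rk K (range eb) := by
      apply rk_mono'
      rw [insert_subset_iff]
      exact ⟨mem_range_self i0, empty_subset _⟩
    refine le_trans ?_ h3
    rw [h2]
    simp
  have hrk : rk k (range x) + 1 ≤ rk k (range xb ∪ range eb) := by
    have h1 : rk k (range x) ≤ rk k (range xb) :=
      rk_le_res_F (κ := k) B K.toSubfield (fun a ha => hKB a ha)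
        (fun a => K.algebraMap_mem a) x' hxK
    have h2 : eb i0 ∉ cl k (range xb) := fun h =>
      hnalg (alg_of_cl (k := k) (K := K) (S := range xb) (by
        rintro _ ⟨j, rfl⟩
        refine ⟨⟨x j, hxK j⟩, ?_⟩
        change IsLocalRing.residue B (algebraMap K B ⟨x j, hxK j⟩) = _
        rw [hxb]
        congr 1
        apply Subtype.ext
        exact (IsScalarTower.algebraMap_apply K B ℝ ⟨x j, hxK j⟩).symm) h)
    have h3 := rk_insert_eq k _ _ h2
    have h4 : rk k (insert (eb i0) (range xb)) ≤ rk k (range xb ∪ range eb) := by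
      apply rk_mono'
      rw [insert_subset_iff]
      exact ⟨Or.inr (mem_range_self i0), subset_union_left⟩
    refine le_trans ?_ h4
    rw [h3]
    gcongr
  have heb0 : eb 0 ≠ 0 := by
    intro h
    apply hnalg
    have h1 : eb i0 = 0 := by
      rw [Fin.sum_univ_two, h] at hiso
      have h2 : eb 1 = 0 := by
        have h3 : eb 1 ^ 2 = 0 := by
          linear_combination hiso
        exact pow_eq_zero_iff two_ne_zero |>.1 h3
      fin_cases i0
      · exact h
      · exact h2
    rw [h1]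
    exact isAlgebraic_zero
  have hu0 : IsUnit (e' 0) := by
    by_contra hnu
    exact heb0 ((IsLocalRing.residue_eq_zero_iff _).2 ((IsLocalRing.mem_maximalIdeal _).2 hnu))
  obtain ⟨v, hv⟩ := hu0.exists_right_inv
  have hvr : e 0 * (v : ℝ) = 1 := congrArg (fun z : B => (z : ℝ)) hv
  set c' : B := -(x' 0) * v with hc'
  have hc'c : (c' : ℝ) = -(x 0) * (v : ℝ) := rfl
  set y' : Fin 2 → B := fun j => x' j + c' * e' j with hy'
  refine ⟨(c' : ℝ), c'.2, ?_, y', e', ?_⟩
  · rw [hc'c]
    linear_combination (-(x 0)) * hvr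
  · refine ⟨fun j => rfl, fun j => rfl, hiso, ?_⟩
    refine shift_rank (k := k) (2 * 0 + 2) xb (fun j => IsLocalRing.residue B (y' j)) eb
      (IsLocalRing.residue B c') ?_ ?_
    · funext j
      rw [hy']
      simp only [map_add, map_mul]
      rw [hxb, heb]
      ring
    · by_cases hfull : ((0 + 2 : ℕ) : ℕ∞) ≤ rk k (range x)
      · left
        refine le_trans ?_ hrk
        have : ((2 * 0 + 2 + 1 : ℕ) : ℕ∞) = ((0 + 2 : ℕ) : ℕ∞) + 1 := by
          norm_cast
        rw [this]
        gcongr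
      · right
        constructor
        · refine le_trans ?_ hrk
          have : ((2 * 0 + 2 : ℕ) : ℕ∞) = 1 + 1 := by
            norm_cast
          rw [this]
          gcongr
        · obtain ⟨Ψ, hΨ, j0, hj0⟩ := exists_rel (m := 0) x (by simpa using hx) hfull
          refine ⟨Ψ, ?_, ?_⟩
          · rw [aeval_res (k := k) B x' Ψ]
            have h1 : (aeval x' Ψ : B) = 0 := by
              apply Subtype.ext
              rw [← aeval_coe (k := k) B]; exact hΨ
            rw [h1, map_zero]
          · have hmem : ∀ j, aeval x (pderiv j Ψ) ∈ K := fun j =>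
              aeval_mem_F K.toSubfield (fun a => K.algebraMap_mem a) x hxK _
            have h2 := lin_ne (k := K) (m := 0) eb hiso hebK
              (fun j => ⟨aeval x (pderiv j Ψ), hmem j⟩)
              (fun h => hj0 (congrArg Subtype.val (congrFun h j0)))
            have h3 : ∀ j, algebraMap K (IsLocalRing.ResidueField B)
                ⟨aeval x (pderiv j Ψ), hmem j⟩ = aeval xb (pderiv j Ψ) := by
              intro j
              rw [hxb, aeval_res (k := k) B x' _]
              change IsLocalRing.residue B (algebraMap K B ⟨aeval x (pderiv j Ψ), hmem j⟩) = _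
              congr 1
              apply Subtype.ext
              rw [← aeval_coe (k := k) B]
              exact (IsScalarTower.algebraMap_apply K B ℝ ⟨aeval x (pderiv j Ψ), hmem j⟩).symm
            simp_rw [h3] at h2
            exact h2

end start

/-! ### Transcendence of the complex coordinate -/

section cplx
variable {k : Type*} [Field k] [Algebra k ℝ]

theorem aeval_ofReal (r : ℝ) (f : Polynomial k) :
    Polynomial.aeval (r : ℂ) f = ((Polynomial.aeval r f : ℝ) : ℂ) :=
  Polynomial.aeval_algebraMap_apply ℂ r f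

theorem mvaeval_ofReal {ι : Type*} (x : ι → ℝ) (f : MvPolynomial ι k) :
    aeval (fun i => (x i : ℂ)) f = ((aeval x f : ℝ) : ℂ) :=
  MvPolynomial.aeval_algebraMap_apply ℂ x f

theorem resTr_real {B : ValuationSubring ℝ} {C : ValuationSubring ℂ}
    (h : ∀ r : ℝ, (r : ℂ) ∈ C ↔ r ∈ B) (r : ℝ) (hr : ¬ ResTr k C (r : ℂ)) : ¬ ResTr k B r := by
  intro h1
  apply hr
  intro f hf h2
  rw [aeval_ofReal, nonunits_real h] at h2
  exact h1 f hf h2

/-- the last claim for a generic state -/
theorem last_claim (B : ValuationSubring ℝ) [Algebra k B] [IsScalarTower k B ℝ]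
    (hkB : ∀ a : k, algebraMap k ℝ a ∈ B)
    (P : MvPolynomial (Fin 2) k) (q e : Fin 2 → ℝ) (q' e' : Fin 2 → B)
    (hst : St (k := k) (m := 0) B q e q' e') (hP : aeval q P = 0)
    (hnc : ¬ Dq k 2 ∣ lead P) (C : ValuationSubring ℂ) (ι : ℂ)
    (hC : ∀ r : ℝ, (r : ℂ) ∈ C ↔ r ∈ B) (hι : ι ^ 2 = -1)
    (hnu : (e 0 : ℂ) + ι * e 1 ∈ C.nonunits) : ResTr k C ((q 0 : ℂ) + ι * q 1) := by
  classical
  by_contra hcon
  have hkC : ∀ a : k, algebraMap k ℂ a ∈ C := by
    intro a
    have h1 : algebraMap k ℂ a = ((algebraMap k ℝ a : ℝ) : ℂ) :=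
      IsScalarTower.algebraMap_apply k ℝ ℂ a
    rw [h1, hC]
    exact hkB a
  let _ : Algebra k C := constAlgebra k C hkC
  have _ : IsScalarTower k C ℂ := constTower k C hkC
  have hιC : ι ∈ C := mem_of_sq hι
  have hqB : ∀ j, q j ∈ B := fun j => by rw [← hst.hq j]; exact (q' j).2
  have heB : ∀ j, e j ∈ B := fun j => by rw [← hst.he j]; exact (e' j).2
  set Q : Fin 2 → C := fun j => ⟨(q j : ℂ), (hC _).2 (hqB j)⟩ with hQ
  set E : Fin 2 → C := fun j => ⟨(e j : ℂ), (hC _).2 (heB j)⟩ with hE
  set J : C := ⟨ι, hιC⟩ with hJ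
  have hP0 := lead_zero_of P hnc
  have hqq : (fun j => (q' j : ℝ)) = q := funext hst.hq
  have hee : (fun j => (e' j : ℝ)) = e := funext hst.he
  have hPq : aeval (fun j => (q' j : ℝ)) P = 0 := by rw [hqq]; exact hP
  have hlead := lead_ne (m := 0) B q' e' P P hP0 hPq hst.iso hst.gen hnc
  -- residues
  set a := IsLocalRing.residue C (Q 0) with ha
  set b := IsLocalRing.residue C (Q 1) with hb
  set e0 := IsLocalRing.residue C (E 0) with he0
  set e1 := IsLocalRing.residue C (E 1) with he1
  set i := IsLocalRing.residue C J with hi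
  have hi2 : i ^ 2 = -1 := by
    rw [hi, ← map_pow]
    have : J ^ 2 = -1 := Subtype.ext hι
    rw [this, map_neg, map_one]
  have hiso : e0 + i * e1 = 0 := by
    rw [he0, hi, he1, ← map_mul, ← map_add, res_eq_zero_iff]
    exact hnu
  have hWalg : IsAlgebraic k (a + i * b) := by
    have h1 : a + i * b = IsLocalRing.residue C (Q 0 + J * Q 1) := by
      rw [map_add, map_mul]
    rw [h1, alg_res_iff]
    exact hcon
  have hialg : IsAlgebraic k i := by
    refine IsAlgebraic.of_pow (n := 2) (by norm_num) ?_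
    rw [hi2]
    exact isAlgebraic_one.neg
  -- the leading form does not vanish
  have hl1 : aeval (fun j => IsLocalRing.residue C (E j)) (lead P) ≠ 0 := by
    intro h0
    apply hlead
    rw [aeval_res (k := k) C, res_eq_zero_iff, ← aeval_coe (k := k) C] at h0
    rw [aeval_res (k := k) B, res_eq_zero_iff, ← aeval_coe (k := k) B, hee]
    have h1 : aeval (fun j => ((E j : C) : ℂ)) (lead P) = ((aeval e (lead P) : ℝ) : ℂ) :=
      mvaeval_ofReal e (lead P)
    rw [h1, nonunits_real hC] at h0
    exact h0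
  have hl2 : aeval (![i, -1] : Fin 2 → _) (lead P) ≠ 0 := by
    intro h0
    apply hl1
    have h1 : (fun j => IsLocalRing.residue C (E j)) =
        fun j => (-e1) * (![i, -1] : Fin 2 → _) j := by
      funext j
      fin_cases j
      · change e0 = -e1 * i
        linear_combination hiso
      · change e1 = -e1 * -1
        ring
    rw [h1, hom_smul P.totalDegree (lead P) (homogeneousComponent_isHomogeneous _ _), h0,
      mul_zero]
  have hPC : aeval (fun j => IsLocalRing.residue C (Q j)) P = 0 := by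
    rw [aeval_res (k := k) C]
    have h1 : (aeval Q P : C) = 0 := by
      apply Subtype.ext
      rw [← aeval_coe (k := k) C]
      have h2 : aeval (fun j => ((Q j : C) : ℂ)) P = ((aeval q P : ℝ) : ℂ) :=
        mvaeval_ofReal q P
      rw [h2, hP]
      simp
    rw [h1, map_zero]
  have hline : (fun j => (![a + i * b, 0] : Fin 2 → _) j + -b * (![i, -1] : Fin 2 → _) j) =
      fun j => IsLocalRing.residue C (Q j) := by
    funext j
    fin_cases j
    · change a + i * b + -b * i = a
      ring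
    · change 0 + -b * -1 = b
      ring
  have hroot := root_algebraic k P (![a + i * b, 0] : Fin 2 → _) (![i, -1] : Fin 2 → _) (-b)
    (by rw [hline]; exact hPC) hl2
  have hbcl : -b ∈ cl k (∅ : Set (IsLocalRing.ResidueField C)) := by
    refine cl_cl_mono k ?_ hroot
    have hicl := mem_cl_empty hialg
    rintro _ (⟨j, rfl⟩ | ⟨j, rfl⟩)
    · fin_cases j
      · exact mem_cl_empty hWalg
      · exact (clAlg k ∅).zero_mem
    · fin_cases j
      · exact hicl
      · exact (clAlg k ∅).neg_mem (clAlg k ∅).one_mem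
  have hbalg : IsAlgebraic k b := by
    have h1 := alg_of_cl (k := k) (K := k) (S := ∅) (by simp) hbcl
    have h2 := h1.neg
    rwa [neg_neg] at h2
  have haalg : IsAlgebraic k a := by
    have h1 : a = (a + i * b) - i * b := by ring
    rw [h1]
    exact hWalg.sub (hialg.mul hbalg)
  have hall : ∀ j, IsAlgebraic k (IsLocalRing.residue B (q' j)) := by
    intro j
    rw [alg_res_iff, hst.hq j]
    apply resTr_real hC
    have h1 : IsAlgebraic k (IsLocalRing.residue C (Q j)) := by
      fin_cases j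
      · exact haalg
      · exact hbalg
    exact (alg_res_iff C (Q j)).1 h1
  have h1 := rk_zero_of _ hall
  have h2 := rk_iso_le (k := k) (m := 0) B e' hst.iso
  have h3 := hst.gen.trans ((rk_union k _ _).trans (add_le_add h1 h2))
  rw [zero_add] at h3
  have := Nat.cast_le.1 h3
  omega

end cplx

/-! ### The chain without bounces -/

section zero
variable {k : Type*} [Field k] [Algebra k ℝ]

/-- the complex numbers with coordinates in `K` -/
def cx (K : IntermediateField k ℝ) : Subalgebra k ℂ where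
  carrier := {w | w.re ∈ K ∧ w.im ∈ K}
  mul_mem' := by
    rintro a b ⟨h1, h2⟩ ⟨h3, h4⟩
    constructor
    · rw [Complex.mul_re]
      exact sub_mem (mul_mem h1 h3) (mul_mem h2 h4)
    · rw [Complex.mul_im]
      exact add_mem (mul_mem h1 h4) (mul_mem h2 h3)
  add_mem' := by
    rintro a b ⟨h1, h2⟩ ⟨h3, h4⟩
    constructor
    · rw [Complex.add_re]
      exact add_mem h1 h3
    · rw [Complex.add_im]
      exact add_mem h2 h4
  algebraMap_mem' := by
    intro r
    have h1 : algebraMap k ℂ r = ((algebraMap k ℝ r : ℝ) : ℂ) :=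
      IsScalarTower.algebraMap_apply k ℝ ℂ r
    constructor
    · rw [h1, Complex.ofReal_re]
      exact K.algebraMap_mem r
    · rw [h1, Complex.ofReal_im]
      exact K.zero_mem

theorem cx_inv (K : IntermediateField k ℝ) {w : ℂ} (hw : w ∈ cx K) :
    w⁻¹.re ∈ K ∧ w⁻¹.im ∈ K := by
  obtain ⟨h1, h2⟩ := hw
  have h3 : Complex.normSq w ∈ K := by
    rw [Complex.normSq_apply]
    exact add_mem (mul_mem h1 h1) (mul_mem h2 h2)
  rw [Complex.inv_re, Complex.inv_im]
  exact ⟨K.div_mem h1 h3, K.div_mem (neg_mem h2) h3⟩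

theorem zero_claim (K : IntermediateField k ℝ) (B : ValuationSubring ℝ) (hKB : ∀ a ∈ K, a ∈ B)
    (x : Fin 2 → ℝ) (hx : (1 : ℕ∞) ≤ rk k (range x)) (hxK : ∀ i, x i ∈ K)
    (C : ValuationSubring ℂ) (ι : ℂ) (hC : ∀ r : ℝ, (r : ℂ) ∈ C ↔ r ∈ B) (hι : ι ^ 2 = -1) :
    ResTr k C ((x 0 : ℂ) + ι * x 1) := by
  intro f hf hnu
  have hιC : ι ∈ C := mem_of_sq hι
  have hιI : ι = Complex.I ∨ ι = -Complex.I := by
    have h1 : (ι - Complex.I) * (ι + Complex.I) = 0 := by
      linear_combination hι - Complex.I_sq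
    rcases mul_eq_zero.1 h1 with h2 | h2
    · exact Or.inl (sub_eq_zero.1 h2)
    · exact Or.inr (eq_neg_of_add_eq_zero_left h2)
  have hz : (x 0 : ℂ) + ι * x 1 ∈ cx K := by
    rcases hιI with h | h
    · rw [h]
      refine ⟨?_, ?_⟩
      · simpa using hxK 0
      · simpa using hxK 1
    · rw [h]
      refine ⟨?_, ?_⟩
      · simpa using hxK 0
      · simpa using hxK 1
  have hfz : Polynomial.aeval ((x 0 : ℂ) + ι * x 1) f ∈ cx K := by
    have h1 := Polynomial.aeval_mem_adjoin_singleton (A := ℂ) k ((x 0 : ℂ) + ι * x 1) (p := f)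
    refine (Algebra.adjoin_le ?_ : Algebra.adjoin k {(x 0 : ℂ) + ι * x 1} ≤ cx K) h1
    rintro _ rfl
    exact hz
  rw [ValuationSubring.mem_nonunits_iff_or] at hnu
  rcases hnu with h0 | h0
  · -- the number is algebraic
    have halg : IsAlgebraic k ((x 0 : ℂ) + ι * x 1) := ⟨f, hf, h0⟩
    have hconj : IsAlgebraic k ((x 0 : ℂ) - ι * x 1) := by
      have h1 := halg.algHom (Complex.conjAe.toAlgHom.restrictScalars k)
      have h2 : (Complex.conjAe.toAlgHom.restrictScalars k) ((x 0 : ℂ) + ι * x 1) =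
          (x 0 : ℂ) - ι * x 1 := by
        change (starRingEnd ℂ) ((x 0 : ℂ) + ι * x 1) = _
        rw [map_add, map_mul, Complex.conj_ofReal, Complex.conj_ofReal]
        rcases hιI with h | h
        · rw [h, Complex.conj_I]; ring
        · rw [h, map_neg, Complex.conj_I]; ring
      rw [h2] at h1
      exact h1
    have h2alg : IsAlgebraic k (2⁻¹ : ℂ) := by
      have h1 : (2⁻¹ : ℂ) = algebraMap k ℂ 2⁻¹ := by
        rw [map_inv₀, map_ofNat]
      rw [h1]
      exact isAlgebraic_algebraMap _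
    have hιalg : IsAlgebraic k ι := by
      refine IsAlgebraic.of_pow (n := 2) (by norm_num) ?_
      rw [hι]
      exact isAlgebraic_one.neg
    have hx0 : IsAlgebraic k (x 0 : ℂ) := by
      have h1 : (x 0 : ℂ) = ((x 0 : ℂ) + ι * x 1 + ((x 0 : ℂ) - ι * x 1)) * 2⁻¹ := by ring
      rw [h1]
      exact (halg.add hconj).mul h2alg
    have hx1 : IsAlgebraic k (x 1 : ℂ) := by
      have h1 : (x 1 : ℂ) = -ι * ((x 0 : ℂ) + ι * x 1 - x 0) := by
        linear_combination (x 1 : ℂ) * hι
      rw [h1]
      exact hιalg.neg.mul (halg.sub hx0)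
    have hall : ∀ j, IsAlgebraic k (x j) := by
      intro j
      have h1 : IsAlgebraic k ((x j : ℝ) : ℂ) := by
        fin_cases j
        · exact hx0
        · exact hx1
      exact (isAlgebraic_algebraMap_iff (R := k) (A := ℂ) (S := ℝ)
        (algebraMap ℝ ℂ).injective).1 h1
    have h1 := hx.trans (rk_zero_of _ hall)
    exact absurd h1 (by norm_num)
  · apply h0
    obtain ⟨h1, h2⟩ := cx_inv K hfz
    set w := (Polynomial.aeval ((x 0 : ℂ) + ι * x 1) f)⁻¹ with hw
    have h3 : (w.re : ℂ) ∈ C := (hC _).2 (hKB _ h1)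
    have h4 : (w.im : ℂ) ∈ C := (hC _).2 (hKB _ h2)
    have h5 : Complex.I ∈ C := mem_of_sq Complex.I_sq
    rw [← Complex.re_add_im w]
    exact add_mem h3 (mul_mem h4 h5)

end zero

/-! ### The chain -/

theorem chain : S_CHAIN := by
  classical
  intro k _ _ K B hKB N P Φ q e s hx hxK heB hnu htr hP hnc hν hq he
  rcases Nat.eq_zero_or_pos N with hN | hN
  · subst hN
    refine ⟨by simp [B.zero_mem], fun l => hKB _ (hxK l), heB, ?_, rfl, ?_⟩
    · obtain ⟨i, hi⟩ := htr
      refine ⟨i, ?_⟩
      have h1 := hi Polynomial.X Polynomial.X_ne_zero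
      rwa [Polynomial.aeval_X] at h1
    · intro C ι hC hι _
      exact zero_claim K B hKB (q 0) hx hxK C ι hC hι
  have hkB : ∀ a : k, algebraMap k ℝ a ∈ B := fun a => hKB _ (K.algebraMap_mem a)
  have hKB' : ∀ a : K, algebraMap K ℝ a ∈ B := fun a => hKB _ a.2
  let _ : Algebra k B := constAlgebra k B hkB
  have _ : IsScalarTower k B ℝ := constTower k B hkB
  let _ : Algebra K B := constAlgebra K B hKB'
  have _ : IsScalarTower K B ℝ := constTower K B hKB'
  obtain ⟨c, hcB, hc, hst⟩ := start_state K B hKB (q 0) (e 0) hx hxK heB hnu htr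
  obtain ⟨Q, hQ⟩ : ∃ Q : ℕ → Fin 2 → ℝ,
      Q = fun i => if i = 0 then fun j => q 0 j + c * e 0 j else q i := ⟨_, rfl⟩
  obtain ⟨S, hS⟩ : ∃ S : ℕ → ℝ, S = fun i => if i = 0 then s 0 - c else s i := ⟨_, rfl⟩
  obtain ⟨R, hR⟩ : ∃ R : ℕ → MvPolynomial (Fin 2) k, R = fun i => if i = 0 then X 0 else P i :=
    ⟨_, rfl⟩
  have hQ0 : Q 0 = fun j => q 0 j + c * e 0 j := by rw [hQ]; simp
  have hQs : ∀ i, 1 ≤ i → Q i = q i := by
    intro i hi
    rw [hQ]
    simp [show i ≠ 0 by omega]
  have hR0 : R 0 = X 0 := by rw [hR]; simp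
  have hRs : ∀ i, 1 ≤ i → R i = P i := by
    intro i hi
    rw [hR]
    simp [show i ≠ 0 by omega]
  have hS0 : S 0 = s 0 - c := by rw [hS]; simp
  have hSs : ∀ i, 1 ≤ i → S i = s i := by
    intro i hi
    rw [hS]
    simp [show i ≠ 0 by omega]
  have hRz : ∀ i ≤ N, aeval (Q i) (R i) = 0 := by
    intro i hi
    rcases Nat.eq_zero_or_pos i with h | h
    · subst h
      rw [hR0, hQ0, aeval_X, hc]
      ring
    · rw [hRs i h, hQs i h]
      exact hP i h hi
  have hRl : ∀ i ≤ N, ¬ Dq k 2 ∣ lead (R i) := by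
    intro i hi
    rcases Nat.eq_zero_or_pos i with h | h
    · subst h
      rw [hR0]
      exact lead_X (m := 0) (Dq_ne_zero k 0)
    · rw [hRs i h]
      exact hnc i h hi
  have hQq : ∀ i < N, Q (i + 1) = fun j => Q i j + S i * e i j := by
    intro i hi
    rw [hQs (i + 1) (by omega), hq i hi]
    rcases Nat.eq_zero_or_pos i with h | h
    · subst h
      rw [hQ0, hS0]
      funext j
      ring
    · rw [hQs i h, hSs i h]
  have hind : ∀ i ≤ N, (∀ j < i, S j ∈ B) ∧ ∃ q' e' : Fin 2 → B,
      St (k := k) (m := 0) B (Q i) (e i) q' e' := by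
    intro i
    induction i with
    | zero =>
      intro _
      refine ⟨fun j hj => absurd hj (Nat.not_lt_zero j), ?_⟩
      rw [hQ0]
      exact hst
    | succ i ih =>
      intro hi
      obtain ⟨h1, h2⟩ := ih (by omega)
      obtain ⟨h3, h4⟩ := step_lemma (m := 0) B (Q i) (e i) (Q (i + 1)) (e (i + 1)) (S i) (R i)
        (R (i + 1)) (Φ (i + 1)) (hRl i (by omega)) (hRz i (by omega)) (hRl (i + 1) hi)
        (hRz (i + 1) hi) (by rw [hQs (i + 1) (by omega)]; exact hν (i + 1) (by omega) hi)
        (hQq i (by omega)) (by rw [hQs (i + 1) (by omega)]; exact he i (by omega)) h2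
      refine ⟨fun j hj => ?_, h4⟩
      rcases Nat.lt_succ_iff_lt_or_eq.1 hj with h5 | h5
      · exact h1 j h5
      · rw [h5]; exact h3
  obtain ⟨hSB, qN, eN, hstN⟩ := hind N le_rfl
  rw [hQs N hN] at hstN
  refine ⟨?_, ?_, ?_, ?_, ?_, ?_⟩
  · refine sum_mem fun i hi => ?_
    have h1 := hSB i (Finset.mem_range.1 hi)
    rcases Nat.eq_zero_or_pos i with h | h
    · subst h
      rw [hS0] at h1
      have h2 : s 0 = (s 0 - c) + c := by ring
      rw [h2]
      exact add_mem h1 hcB
    · rw [hSs i h] at h1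
      exact h1
  · intro l
    rw [← hstN.hq l]
    exact (qN l).2
  · intro l
    rw [← hstN.he l]
    exact (eN l).2
  · by_contra hall
    push Not at hall
    have h1 : ∀ j, IsLocalRing.residue B (eN j) = 0 := by
      intro j
      rw [res_eq_zero_iff, hstN.he j]
      exact hall j
    have h2 : rk k (range (fun j => IsLocalRing.residue B (eN j))) ≤ 0 := by
      apply rk_zero_of
      intro j
      rw [h1 j]
      exact isAlgebraic_zero
    have hP' : aeval (fun j => (qN j : ℝ)) (P N) = 0 := by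
      have : (fun j => (qN j : ℝ)) = q N := funext hstN.hq
      rw [this]; exact hP N hN le_rfl
    have h3 := rk_pos_le (k := k) (m := 0) B qN (P N) (lead_zero_of _ (hnc N hN le_rfl)) hP'
    have h4 := hstN.gen.trans ((rk_union k _ _).trans (add_le_add h3 h2))
    rw [add_zero] at h4
    have := Nat.cast_le.1 h4
    omega
  · have h1 : ∀ i ≤ N, ∑ j, e i j ^ 2 = ∑ j, e 0 j ^ 2 := by
      intro i
      induction i with
      | zero => intro _; rfl
      | succ i ih =>
        intro hi
        rw [he i (by omega), refl_sq _ _ (sq_sum_ne _ (hν (i + 1) (by omega) hi))]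
        exact ih (by omega)
    exact h1 N le_rfl
  · intro C ι hC hι hnu'
    exact last_claim B hkB (P N) (q N) (e N) qN eN hstN (hP N hN le_rfl) (hnc N hN le_rfl) C ι hC hι
      hnu'

end Pool.Agent.Y474.TB
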